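import Pool.Agent.W266.GF.Basic

set_option autoImplicit false

/-!
GF-GT: the global theorem.
-/

namespace Pool.Agent.W266.GF

open Complex Pool.Agent.W175.GF

/-- the global theorem for a fixed index type -/
def GTfor (ι : Type) [Fintype ι] : Prop := ∀ (Ω : Set ℂ) (t₀ : ℂ → ℂ) (y : ι → ℂ → ℂ)
  (N : Finset (ι → ℕ)) (c : (ι → ℕ) → ℂ → ℂ), IsOpen Ω → IsPreconnected Ω → Ω.Nonempty →
  DifferentiableOn ℂ t₀ Ω → (∀ i, DifferentiableOn ℂ (y i) Ω) →
  (∀ k ∈ N, DifferentiableOn ℂ (c k) Ω) →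
  (∀ v : ℂ, ¬ ∀ t ∈ Ω, t₀ t = v) → (∀ i, ∀ v : ℂ, ¬ ∀ t ∈ Ω, y i t = v) →
  (∀ i, AlgDep Ω t₀ (y i)) → (∀ k ∈ N, AlgDep Ω t₀ (c k)) →
  (∀ i j, i ≠ j → ∀ p q : ℚ, ¬ ∀ t ∈ Ω, y i t = p * y j t + q) →
  (∀ t ∈ Ω, ∑ k ∈ N, c k t * ∏ i, (Gamma (y i t))⁻¹ ^ k i = 0) →
  ∀ k ∈ N, ∀ t ∈ Ω, c k t = 0

theorem AlgDep.mono {Ω Ω' : Set ℂ} (h : Ω' ⊆ Ω) {f g : ℂ → ℂ} (hf : AlgDep Ω f g) :
    AlgDep Ω' f g := by
  obtain ⟨Q, hQ, h1⟩ := hf
  exact ⟨Q, hQ, fun t ht => h1 t (h ht)⟩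

theorem evalEval_sum (Q : Polynomial (Polynomial ℂ)) (x y : ℂ) :
    Q.evalEval x y = ∑ n ∈ Finset.range (Q.natDegree + 1), (Q.coeff n).eval x * y ^ n := by
  rw [Polynomial.evalEval, Polynomial.eval_eq_sum_range (p := Q) (Polynomial.C y),
    Polynomial.eval_finsetSum]
  apply Finset.sum_congr rfl
  intro n _
  rw [Polynomial.eval_mul, Polynomial.eval_pow, Polynomial.eval_C]

theorem diff_evalEval {κ : Type} [Fintype κ] (Q : Polynomial (Polynomial ℂ)) (a b : κ) :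
    Differentiable ℂ (fun x : κ → ℂ => Q.evalEval (x a) (x b)) := by
  have h1 : (fun x : κ → ℂ => Q.evalEval (x a) (x b)) =
      fun x : κ → ℂ => ∑ n ∈ Finset.range (Q.natDegree + 1), (Q.coeff n).eval (x a) * x b ^ n := by
    funext x
    exact evalEval_sum Q _ _
  rw [h1]
  apply Differentiable.fun_sum
  intro n _
  apply Differentiable.mul
  · exact (Polynomial.differentiable (Q.coeff n)).comp (differentiable_apply a)
  · exact (differentiable_apply b).pow n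

/-- the local step: everything on a punctured disc -/
theorem local_step (h1 : S_LT) (h4 : S_CLS) {ι : Type} [Fintype ι] (j : ι)
    (IH : ∀ (ι' : Type) [Fintype ι'], Fintype.card ι' < Fintype.card ι → GTfor ι')
    (r : ℝ) (hr : 0 < r) (hr1 : r < 1) (Y : ι → ℂ → ℂ) (N : Finset (ι → ℕ))
    (C : (ι → ℕ) → ℂ → ℂ) (hY : ∀ i, Mer r (Y i)) (hC : ∀ k ∈ N, Mer r (C k))
    (e : ℕ) (he : 1 ≤ e) (tc : ℂ) (hYj : ∀ s ∈ U r, Y j s = tc + s⁻¹ ^ e)
    (hnc : ∀ i, ∀ v : ℂ, ¬ ∀ t ∈ U r, Y i t = v)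
    (hA : ∀ i, AlgDep (U r) (Y j) (Y i)) (hAC : ∀ k ∈ N, AlgDep (U r) (Y j) (C k))
    (hH : ∀ i l, i ≠ l → ∀ p q : ℚ, ¬ ∀ t ∈ U r, Y i t = p * Y l t + q)
    (hrel : ∀ s ∈ U r, ∑ k ∈ N, C k s * ∏ i, (Gamma (Y i s))⁻¹ ^ k i = 0) :
    ∀ k ∈ N, ∀ s ∈ U r, C k s = 0 := by
  classical
  let P : ι → Prop := fun i => ∃ (r' : ℝ) (m : ℕ) (a : ℂ) (K : ℝ), 0 < r' ∧ r' ≤ r ∧ 1 ≤ m ∧
    a ≠ 0 ∧ ∀ s ∈ U r', ‖Y i s - a * s⁻¹ ^ m‖ ≤ K * ‖s‖⁻¹ ^ (m - 1)
  have hrad : ∀ i, ∃ ri : ℝ, 0 < ri ∧ ri ≤ r ∧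
      (P i → ∃ (m : ℕ) (a : ℂ) (K : ℝ), 1 ≤ m ∧ a ≠ 0 ∧
        ∀ s ∈ U ri, ‖Y i s - a * s⁻¹ ^ m‖ ≤ K * ‖s‖⁻¹ ^ (m - 1)) ∧
      (¬ P i → ∃ B : ℝ, ∀ s ∈ U ri, ‖Y i s‖ ≤ B) := by
    intro i
    by_cases hP : P i
    · obtain ⟨r', m, a, K, h5, h6, h7, h8, h9⟩ := hP
      exact ⟨r', h5, h6, fun _ => ⟨m, a, K, h7, h8, h9⟩,
        fun hn => absurd ⟨r', m, a, K, h5, h6, h7, h8, h9⟩ hn⟩
    · rcases h4 r (Y i) hr (hY i) with h5 | h5
      · obtain ⟨r', B, h6, h7, h8⟩ := h5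
        exact ⟨r', h6, h7, fun h => absurd h hP, fun _ => ⟨B, h8⟩⟩
      · exact absurd h5 hP
  choose R hR0 hRr hRP hRn using hrad
  obtain ⟨r0, hr0, hr0R⟩ : ∃ r0 : ℝ, 0 < r0 ∧ ∀ i, r0 ≤ R i := by
    refine ⟨Finset.univ.inf' ⟨j, Finset.mem_univ j⟩ R, ?_, fun i => Finset.inf'_le _ (Finset.mem_univ i)⟩
    rw [Finset.lt_inf'_iff]
    intro i _
    exact hR0 i
  have hr0r : r0 ≤ r := (hr0R j).trans (hRr j)
  have hr01 : r0 < 1 := lt_of_le_of_lt hr0r hr1
  have hPj : P j := by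
    refine ⟨r, e, 1, ‖tc‖, hr, le_refl _, he, one_ne_zero, fun s hs => ?_⟩
    rw [hYj s hs]
    have h5 := inv_ge_one hr1 hs
    have h6 : (1 : ℝ) ≤ ‖s‖⁻¹ ^ (e - 1) := one_le_pow₀ h5
    calc ‖tc + s⁻¹ ^ e - 1 * s⁻¹ ^ e‖ = ‖tc‖ := by congr 1; ring
      _ = ‖tc‖ * 1 := (mul_one _).symm
      _ ≤ ‖tc‖ * ‖s‖⁻¹ ^ (e - 1) := mul_le_mul_of_nonneg_left h6 (norm_nonneg _)
  -- bounds for `1/Γ (Y i)`, `i ∉ P`
  have hbd : ∀ i, ¬ P i → ∃ B : ℝ, ∀ s ∈ U r0, ‖(Gamma (Y i s))⁻¹‖ ≤ B := by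
    intro i hi
    obtain ⟨B, hB⟩ := hRn i hi
    obtain ⟨B', hB'⟩ := invGamma_bdd B
    exact ⟨B', fun s hs => hB' _ (hB s (U_subset (hr0R i) hs))⟩
  have hdG : ∀ i, DifferentiableOn ℂ (fun s => (Gamma (Y i s))⁻¹) (U r0) := by
    intro i
    exact differentiable_one_div_Gamma.comp_differentiableOn ((hY i).1.mono (U_subset hr0r))
  let resP : (ι → ℕ) → ({i // P i} → ℕ) := fun k i => k i
  let resQ : (ι → ℕ) → ({i // ¬ P i} → ℕ) := fun k i => k i
  let glue : ({i // P i} → ℕ) → ({i // ¬ P i} → ℕ) → (ι → ℕ) := fun κ μ i =>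
    if h : P i then κ ⟨i, h⟩ else μ ⟨i, h⟩
  have hglue : ∀ k, glue (resP k) (resQ k) = k := by
    intro k
    funext i
    by_cases h : P i
    · simp [glue, resP, h]
    · simp [glue, resQ, h]
  let D : ({i // P i} → ℕ) → ℂ → ℂ := fun κ s =>
    ∑ k ∈ N.filter (fun k => resP k = κ), C k s * ∏ i : {i // ¬ P i}, (Gamma (Y i s))⁻¹ ^ k i
  have hDrel : ∀ s ∈ U r0, ∑ κ ∈ N.image resP, D κ s *
      ∏ i : {i // P i}, (Gamma (Y i s))⁻¹ ^ κ i = 0 := by
    intro s hs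
    rw [← hrel s (U_subset hr0r hs)]
    rw [← Finset.sum_fiberwise_of_maps_to (s := N) (t := N.image resP) (g := resP)
      (fun k hk => Finset.mem_image_of_mem _ hk)]
    apply Finset.sum_congr rfl
    intro κ _
    simp only [D]
    rw [Finset.sum_mul]
    apply Finset.sum_congr rfl
    intro k hk
    have hk2 : resP k = κ := (Finset.mem_filter.1 hk).2
    rw [← Fintype.prod_subtype_mul_prod_subtype P (fun i => (Gamma (Y i s))⁻¹ ^ k i)]
    have : ∏ i : {i // P i}, (Gamma (Y i s))⁻¹ ^ κ i =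
        ∏ i : {i // P i}, (Gamma (Y i s))⁻¹ ^ k i := by
      rw [← hk2]
    rw [this]
    ring
  have hDMer : ∀ κ ∈ N.image resP, Mer r0 (D κ) := by
    intro κ _
    apply Mer.sum hr01
    intro k hk
    apply Mer.mul (Mer.mono hr0r (hC k (Finset.mem_filter.1 hk).1))
    choose B hB using fun i : {i // ¬ P i} => hbd i.1 i.2
    apply Mer.of_bdd (C := ∏ i : {i // ¬ P i}, B i ^ k i)
    · apply DifferentiableOn.fun_finsetProd
      intro i _
      exact (hdG i).pow _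
    · intro s hs
      rw [norm_prod]
      apply Finset.prod_le_prod
      · intro i _
        exact norm_nonneg _
      · intro i _
        rw [norm_pow]
        exact pow_le_pow_left₀ (norm_nonneg _) (hB i s hs) _
  have hD0 : ∀ κ ∈ N.image resP, ∀ s ∈ U r0, D κ s = 0 := by
    apply h1 r0 {i // P i} (fun i => Y i) hr0 hr01
    · intro i
      exact (hY i).1.mono (U_subset hr0r)
    · intro i
      obtain ⟨m, a, K, h5, h6, h7⟩ := hRP i.1 i.2
      exact ⟨m, a, K, h5, h6, fun s hs => h7 s (U_subset (hr0R i) hs)⟩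
    · intro i l hil p q hcon
      apply hH i.1 l.1 (fun h => hil (Subtype.ext h)) p q
      intro t ht
      have h5 := ident_U hr0 hr0r (H := fun t => Y i t - (p * Y l t + q))
        (((hY i).1).sub (((hY l).1.const_mul _).add_const _)) (fun s hs => by
          simp only [hcon s hs, sub_self]) t ht
      exact sub_eq_zero.1 h5
    · exact hDMer
    · exact hDrel
  have hfin : ∀ k ∈ N, ∀ s ∈ U r0, C k s = 0 := by
    intro k₀ hk₀
    have hκ : resP k₀ ∈ N.image resP := Finset.mem_image_of_mem _ hk₀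
    have hcard : Fintype.card {i // ¬ P i} < Fintype.card ι :=
      Fintype.card_subtype_lt (x := j) (fun h => h hPj)
    have h5 := IH {i // ¬ P i} hcard (U r0) (Y j) (fun i => Y i)
      ((N.filter (fun k => resP k = resP k₀)).image resQ)
      (fun μ => C (glue (resP k₀) μ)) (isOpen_U r0) (isPreconnected_U r0) (nonempty_U hr0)
      ((hY j).1.mono (U_subset hr0r)) (fun i => (hY i).1.mono (U_subset hr0r))
    have hmem : ∀ μ ∈ (N.filter (fun k => resP k = resP k₀)).image resQ,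
        glue (resP k₀) μ ∈ N := by
      intro μ hμ
      obtain ⟨k, hk, rfl⟩ := Finset.mem_image.1 hμ
      obtain ⟨hk1, hk2⟩ := Finset.mem_filter.1 hk
      rw [← hk2, hglue]
      exact hk1
    have h6 := h5 (fun μ hμ => ((hC _ (hmem μ hμ)).1).mono (U_subset hr0r)) ?_ ?_
      (fun i => AlgDep.mono (U_subset hr0r) (hA i))
      (fun μ hμ => AlgDep.mono (U_subset hr0r) (hAC _ (hmem μ hμ))) ?_ ?_
      (resQ k₀) (Finset.mem_image_of_mem _ (Finset.mem_filter.2 ⟨hk₀, rfl⟩))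
    · intro s hs
      have := h6 s hs
      simp only [hglue] at this
      exact this
    · intro v hv
      apply hnc j v
      intro t ht
      have h7 := ident_U hr0 hr0r (H := fun t => Y j t - v) ((hY j).1.sub_const _)
        (fun s hs => by simp only [hv s hs, sub_self]) t ht
      exact sub_eq_zero.1 h7
    · intro i v hv
      apply hnc i v
      intro t ht
      have h7 := ident_U hr0 hr0r (H := fun t => Y i t - v) ((hY i).1.sub_const _)
        (fun s hs => by simp only [hv s hs, sub_self]) t ht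
      exact sub_eq_zero.1 h7
    · intro i l hil p q hcon
      apply hH i.1 l.1 (fun h => hil (Subtype.ext h)) p q
      intro t ht
      have h7 := ident_U hr0 hr0r (H := fun t => Y i t - (p * Y l t + q))
        (((hY i).1).sub (((hY l).1.const_mul _).add_const _)) (fun s hs => by
          simp only [hcon s hs, sub_self]) t ht
      exact sub_eq_zero.1 h7
    · intro s hs
      have h7 := hD0 _ hκ s hs
      simp only [D] at h7
      rw [← h7]
      rw [Finset.sum_image]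
      · apply Finset.sum_congr rfl
        intro k hk
        obtain ⟨hk1, hk2⟩ := Finset.mem_filter.1 hk
        have h8 : glue (resP k₀) (resQ k) = k := by
          rw [← hk2, hglue]
        rw [h8]
      · intro k hk k' hk' hkk
        have hk2 := (Finset.mem_filter.1 hk).2
        have hk2' := (Finset.mem_filter.1 hk').2
        rw [← hglue k, ← hglue k', hk2, hk2', hkk]
  intro k hk
  exact ident_U hr0 hr0r (hC k hk).1 (hfin k hk)

theorem diff_prod {E : Type} [NormedAddCommGroup E] [NormedSpace ℂ E] {α : Type}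
    (S : Finset α) (f : α → E → ℂ) (hf : ∀ a ∈ S, Differentiable ℂ (f a)) :
    Differentiable ℂ (fun x => ∏ a ∈ S, f a x) := by
  classical
  induction S using Finset.induction_on with
  | empty => simp
  | insert a S ha ih =>
    simp only [Finset.prod_insert ha]
    exact (hf a (Finset.mem_insert_self _ _)).mul
      (ih (fun b hb => hf b (Finset.mem_insert_of_mem hb)))

/-- the global theorem -/
theorem gt (h1 : S_LT) (h2 : S_CONT) (h3 : S_ALG) (h4 : S_CLS) : S_GT := by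
  classical
  suffices h : ∀ (n : ℕ) (ι : Type) [Fintype ι], Fintype.card ι = n → GTfor ι by
    intro ι _
    exact h _ ι rfl
  intro n
  induction n using Nat.strong_induction_on with
  | _ n IHn =>
  intro ι _ hn
  have IH : ∀ (ι' : Type) [Fintype ι'], Fintype.card ι' < Fintype.card ι → GTfor ι' := by
    intro ι' _ hlt
    exact IHn (Fintype.card ι') (hn ▸ hlt) ι' rfl
  intro Ω t₀ y N c hΩ hΩc hΩn ht₀ hy hc hnt₀ hny hAy hAc hH hrel
  rcases isEmpty_or_nonempty ι with hemp | ⟨⟨j⟩⟩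
  · intro k hk t ht
    have h5 := hrel t ht
    rw [Finset.sum_eq_single k] at h5
    · simpa using h5
    · intro b _ hb
      exact absurd (Subsingleton.elim b k) hb
    · intro h6
      exact absurd hk h6
  obtain ⟨Ω', g, hΩ', hΩ'c, hΩ'n, hg, hgΩ, hyg, hgo⟩ := loc_inv hΩ hΩc (hy j) (hny j)
  have htr : ∀ H : ℂ → ℂ, DifferentiableOn ℂ H Ω → (∀ x ∈ Ω', H (g x) = 0) →
      ∀ t ∈ Ω, H t = 0 := by
    intro H hHd hH0
    apply ident hΩ hΩc hHd hgo (hΩ'n.image g)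
    · rintro _ ⟨x, hx, rfl⟩
      exact hgΩ x hx
    · rintro _ ⟨x, hx, rfl⟩
      exact hH0 x hx
  have hcomp : ∀ H : ℂ → ℂ, DifferentiableOn ℂ H Ω →
      DifferentiableOn ℂ (fun x => H (g x)) Ω' := fun H hHd => hHd.comp hg (fun x hx => hgΩ x hx)
  have hncomp : ∀ H : ℂ → ℂ, DifferentiableOn ℂ H Ω → (∀ v : ℂ, ¬ ∀ t ∈ Ω, H t = v) →
      ∀ v : ℂ, ¬ ∀ x ∈ Ω', H (g x) = v := by
    intro H hHd hHn v hv
    apply hHn v
    intro t ht
    exact sub_eq_zero.1 (htr (fun t => H t - v) (hHd.sub_const _)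
      (fun x hx => by simp only [hv x hx, sub_self]) t ht)
  have hAcomp : ∀ f H : ℂ → ℂ, AlgDep Ω f H →
      AlgDep Ω' (fun x => f (g x)) (fun x => H (g x)) := by
    rintro f H ⟨Q, hQ, hQ0⟩
    exact ⟨Q, hQ, fun x hx => hQ0 _ (hgΩ x hx)⟩
  -- all functions are algebraic over `y j`
  have hA1 : ∀ H : ℂ → ℂ, DifferentiableOn ℂ H Ω → AlgDep Ω t₀ H →
      AlgDep Ω' (fun x => y j (g x)) (fun x => H (g x)) := by
    intro H hHd hHA
    exact h3 Ω' (fun x => t₀ (g x)) _ _ hΩ' hΩ'c hΩ'n (hcomp _ ht₀) (hcomp _ (hy j))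
      (hcomp _ hHd) (hncomp _ ht₀ hnt₀) (hncomp _ (hy j) (hny j)) (hAcomp _ _ (hAy j))
      (hAcomp _ _ hHA)
  let f : ι ⊕ {k // k ∈ N} → ℂ → ℂ :=
    Sum.elim (fun i x => y i (g x)) (fun k x => c k.1 (g x))
  obtain ⟨e, r, tc, F, he, hr, hr1, hFj, hFM, htrans⟩ := h2 Ω' (ι ⊕ {k // k ∈ N}) (Sum.inl j) f
    hΩ' hΩ'c hΩ'n (by
      rintro (i | k)
      · exact hcomp _ (hy i)
      · exact hcomp _ (hc k.1 k.2)) (fun x hx => hyg x hx) (by
      rintro (i | k)
      · exact hA1 _ (hy i) (hAy i)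
      · exact hA1 _ (hc k.1 k.2) (hAc k.1 k.2))
  have hAF : ∀ a, AlgDep Ω' (f (Sum.inl j)) (f a) → AlgDep (U r) (F (Sum.inl j)) (F a) := by
    rintro a ⟨Q, hQ, hQ0⟩
    refine ⟨Q, hQ, ?_⟩
    exact (htrans (fun x => Q.evalEval (x (Sum.inl j)) (x a)) (diff_evalEval Q _ _)).1 hQ0
  have hfin : ∀ k ∈ N, ∀ s ∈ U r,
      (fun k s => if h : k ∈ N then F (Sum.inr ⟨k, h⟩) s else 0) k s = 0 := by
    apply local_step h1 h4 j IH r hr hr1 (fun i => F (Sum.inl i)) N _ (fun i => hFM _) ?_ e he tc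
      hFj ?_ ?_ ?_ ?_ ?_
    · intro k hk
      simp only [hk, dite_true]
      exact hFM _
    · intro i v hv
      apply hncomp _ (hy i) (hny i) v
      intro x hx
      exact sub_eq_zero.1 ((htrans (fun x => x (Sum.inl i) - v)
        ((differentiable_apply _).sub_const _)).2
        (fun s hs => by simp only [hv s hs, sub_self]) x hx)
    · intro i
      exact hAF (Sum.inl i) (hA1 _ (hy i) (hAy i))
    · intro k hk
      simp only [hk, dite_true]
      exact hAF (Sum.inr ⟨k, hk⟩) (hA1 _ (hc k hk) (hAc k hk))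
    · intro i l hil p q hcon
      apply hH i l hil p q
      intro t ht
      refine sub_eq_zero.1 (htr (fun t => y i t - (p * y l t + q))
        ((hy i).sub (((hy l).const_mul _).add_const _)) ?_ t ht)
      intro x hx
      exact (htrans (fun x => x (Sum.inl i) - (p * x (Sum.inl l) + q))
        ((differentiable_apply _).sub (((differentiable_apply _).const_mul _).add_const _))).2
        (fun s hs => by simp only [hcon s hs, sub_self]) x hx
    · have h5 := (htrans (fun x => ∑ k : {k // k ∈ N}, x (Sum.inr k) *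
        ∏ i, (Gamma (x (Sum.inl i)))⁻¹ ^ k.1 i) ?_).1 ?_
      · intro s hs
        have h6 := h5 s hs
        rw [← h6]
        rw [← Finset.sum_coe_sort N]
        apply Finset.sum_congr rfl
        intro k _
        simp only [k.2, dite_true]
      · apply Differentiable.fun_sum
        intro k _
        apply Differentiable.mul (differentiable_apply _)
        apply diff_prod
        intro i _
        exact (differentiable_one_div_Gamma.comp (differentiable_apply _)).pow _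
      · intro x hx
        have h6 := hrel (g x) (hgΩ x hx)
        rw [← Finset.sum_coe_sort N] at h6
        exact h6
  intro k hk
  apply htr (c k) (hc k hk)
  intro x hx
  refine (htrans (fun x => x (Sum.inr ⟨k, hk⟩)) (differentiable_apply _)).2 ?_ x hx
  intro s hs
  have h5 := hfin k hk s hs
  simp only [hk, dite_true] at h5
  exact h5

end Pool.Agent.W266.GF
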