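import Pool.Agent.W175.GF.Stm

set_option autoImplicit false

/-!
Auxiliary lemmas for the global theorem (GF-GT): identity theorem, local inverse, punctured discs.
-/

namespace Pool.Agent.W266.GF

open Complex Pool.Agent.W175.GF

/-- identity theorem -/
theorem ident {Ω : Set ℂ} (hΩ : IsOpen Ω) (hc : IsPreconnected Ω) {H : ℂ → ℂ}
    (hH : DifferentiableOn ℂ H Ω) {V : Set ℂ} (hV : IsOpen V) (hVn : V.Nonempty)
    (hVΩ : V ⊆ Ω) (h0 : ∀ t ∈ V, H t = 0) : ∀ t ∈ Ω, H t = 0 := by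
  obtain ⟨v, hv⟩ := hVn
  have ha : AnalyticOnNhd ℂ H Ω := hH.analyticOnNhd hΩ
  have := ha.eqOn_zero_of_preconnected_of_eventuallyEq_zero hc (hVΩ hv) (by
    filter_upwards [hV.mem_nhds hv] with t ht
    exact h0 t ht)
  intro t ht
  exact this ht

/-- local inverse of a nonconstant holomorphic function -/
theorem loc_inv {Ω : Set ℂ} (hΩ : IsOpen Ω) (hc : IsPreconnected Ω) {y : ℂ → ℂ}
    (hy : DifferentiableOn ℂ y Ω) (hn : ∀ v : ℂ, ¬ ∀ t ∈ Ω, y t = v) :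
    ∃ (Ω' : Set ℂ) (g : ℂ → ℂ), IsOpen Ω' ∧ IsPreconnected Ω' ∧ Ω'.Nonempty ∧
      DifferentiableOn ℂ g Ω' ∧ (∀ x ∈ Ω', g x ∈ Ω) ∧ (∀ x ∈ Ω', y (g x) = x) ∧
      IsOpen (g '' Ω') := by
  have h1 : ∃ t₁ ∈ Ω, deriv y t₁ ≠ 0 := by
    by_contra hcon
    push Not at hcon
    obtain ⟨a, ha⟩ := hΩ.exists_is_const_of_deriv_eq_zero hc hy (fun t ht => hcon t ht)
    exact hn a ha
  obtain ⟨t₁, ht₁, hd⟩ := h1
  have hca : ContDiffAt ℂ 1 y t₁ := ((hy.analyticOnNhd hΩ) t₁ ht₁).contDiffAt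
  have hda : HasDerivAt y (deriv y t₁) t₁ :=
    ((hy t₁ ht₁).differentiableAt (hΩ.mem_nhds ht₁)).hasDerivAt
  have hfd := hda.hasFDerivAt_equiv hd
  let e := hca.toOpenPartialHomeomorph y hfd one_ne_zero
  have hes : t₁ ∈ e.source := hca.mem_toOpenPartialHomeomorph_source hfd one_ne_zero
  have het : y t₁ ∈ e.target := hca.image_mem_toOpenPartialHomeomorph_target hfd one_ne_zero
  have hey : ∀ t, e t = y t := fun t => rfl
  have hsym : e.symm (y t₁) = t₁ := by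
    rw [← hey]
    exact e.left_inv hes
  have hcd : ContDiffAt ℂ 1 e.symm (y t₁) := hca.to_localInverse hfd one_ne_zero
  have hev1 : ∀ᶠ x in nhds (y t₁), ContDiffAt ℂ 1 e.symm x :=
    hcd.eventually (by simp)
  have hev2 : ∀ᶠ x in nhds (y t₁), e.symm x ∈ Ω := by
    apply hcd.continuousAt.eventually_mem
    rw [hsym]
    exact hΩ.mem_nhds ht₁
  have hev3 : ∀ᶠ x in nhds (y t₁), x ∈ e.target := e.open_target.mem_nhds het
  obtain ⟨ρ, hρ, hball⟩ := Metric.eventually_nhds_iff_ball.1 ((hev1.and hev2).and hev3)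
  refine ⟨Metric.ball (y t₁) ρ, e.symm, Metric.isOpen_ball, (convex_ball _ _).isPreconnected,
    ⟨_, Metric.mem_ball_self hρ⟩, ?_, ?_, ?_, ?_⟩
  · intro x hx
    exact ((hball x hx).1.1.differentiableAt one_ne_zero).differentiableWithinAt
  · intro x hx
    exact (hball x hx).1.2
  · intro x hx
    have := e.right_inv (hball x hx).2
    rwa [hey] at this
  · exact e.isOpen_image_symm_of_subset_target Metric.isOpen_ball (fun x hx => (hball x hx).2)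

theorem isOpen_U (r : ℝ) : IsOpen (U r) := by
  have h1 : IsOpen {s : ℂ | 0 < ‖s‖} := isOpen_lt continuous_const continuous_norm
  have h2 : IsOpen {s : ℂ | ‖s‖ < r} := isOpen_lt continuous_norm continuous_const
  exact h1.inter h2

theorem U_eq_image {r : ℝ} (hr : 0 < r) : U r = exp '' {w : ℂ | w.re < Real.log r} := by
  ext s
  constructor
  · rintro ⟨h0, h1⟩
    refine ⟨log s, ?_, exp_log (norm_pos_iff.1 h0)⟩
    simp only [Set.mem_ofPred_eq, log_re]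
    exact Real.log_lt_log h0 h1
  · rintro ⟨w, hw, rfl⟩
    refine ⟨by rw [norm_exp]; exact Real.exp_pos _, ?_⟩
    rw [norm_exp]
    calc Real.exp w.re < Real.exp (Real.log r) := Real.exp_lt_exp.2 hw
      _ = r := Real.exp_log hr

theorem isPreconnected_U (r : ℝ) : IsPreconnected (U r) := by
  by_cases hr : 0 < r
  · rw [U_eq_image hr]
    apply IsPreconnected.image
    · exact (convex_halfSpace_re_lt _).isPreconnected
    · exact continuous_exp.continuousOn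
  · have : U r = ∅ := by
      ext s
      simp only [U, Set.mem_ofPred_eq, Set.mem_empty_iff_false, iff_false, not_and, not_lt]
      intro h
      linarith
    rw [this]
    exact isPreconnected_empty

theorem nonempty_U {r : ℝ} (hr : 0 < r) : (U r).Nonempty := by
  refine ⟨((r / 2 : ℝ) : ℂ), ?_, ?_⟩
  · rw [norm_real, Real.norm_eq_abs, abs_of_pos (by positivity)]
    positivity
  · rw [norm_real, Real.norm_eq_abs, abs_of_pos (by positivity)]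
    linarith

theorem U_subset {r r' : ℝ} (h : r' ≤ r) : U r' ⊆ U r := fun _ hs => ⟨hs.1, lt_of_lt_of_le hs.2 h⟩

theorem ident_U {r r' : ℝ} (hr' : 0 < r') (h : r' ≤ r) {H : ℂ → ℂ}
    (hH : DifferentiableOn ℂ H (U r)) (h0 : ∀ s ∈ U r', H s = 0) : ∀ s ∈ U r, H s = 0 :=
  ident (isOpen_U r) (isPreconnected_U r) hH (isOpen_U r') (nonempty_U hr') (U_subset h) h0

theorem Mer.mono {r r' : ℝ} (h : r' ≤ r) {f : ℂ → ℂ} (hf : Mer r f) : Mer r' f := by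
  obtain ⟨h1, D, C, hC⟩ := hf
  exact ⟨h1.mono (U_subset h), D, C, fun s hs => hC s (U_subset h hs)⟩

theorem inv_ge_one {r : ℝ} (hr1 : r < 1) {s : ℂ} (hs : s ∈ U r) : 1 ≤ ‖s‖⁻¹ :=
  (one_le_inv₀ hs.1).2 (by linarith [hs.2])

theorem Mer.zero (r : ℝ) : Mer r (fun _ => 0) := by
  refine ⟨differentiableOn_const _, 0, 0, fun s hs => by simp⟩

theorem Mer.add {r : ℝ} (hr1 : r < 1) {f g : ℂ → ℂ} (hf : Mer r f) (hg : Mer r g) :
    Mer r (fun s => f s + g s) := by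
  obtain ⟨h1, D, C, hC⟩ := hf
  obtain ⟨h2, D', C', hC'⟩ := hg
  refine ⟨h1.add h2, D + D', |C| + |C'|, fun s hs => ?_⟩
  have h3 := inv_ge_one hr1 hs
  have h4 : ‖s‖⁻¹ ^ D ≤ ‖s‖⁻¹ ^ (D + D') := pow_le_pow_right₀ h3 (by omega)
  have h5 : ‖s‖⁻¹ ^ D' ≤ ‖s‖⁻¹ ^ (D + D') := pow_le_pow_right₀ h3 (by omega)
  have h6 : (0 : ℝ) ≤ ‖s‖⁻¹ ^ D := by positivity
  have h7 : (0 : ℝ) ≤ ‖s‖⁻¹ ^ D' := by positivity
  calc ‖f s + g s‖ ≤ ‖f s‖ + ‖g s‖ := norm_add_le _ _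
    _ ≤ C * ‖s‖⁻¹ ^ D + C' * ‖s‖⁻¹ ^ D' := add_le_add (hC s hs) (hC' s hs)
    _ ≤ |C| * ‖s‖⁻¹ ^ D + |C'| * ‖s‖⁻¹ ^ D' :=
      add_le_add (mul_le_mul_of_nonneg_right (le_abs_self _) h6)
        (mul_le_mul_of_nonneg_right (le_abs_self _) h7)
    _ ≤ |C| * ‖s‖⁻¹ ^ (D + D') + |C'| * ‖s‖⁻¹ ^ (D + D') :=
      add_le_add (mul_le_mul_of_nonneg_left h4 (abs_nonneg _))
        (mul_le_mul_of_nonneg_left h5 (abs_nonneg _))
    _ = (|C| + |C'|) * ‖s‖⁻¹ ^ (D + D') := by ring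

theorem Mer.mul {r : ℝ} {f g : ℂ → ℂ} (hf : Mer r f) (hg : Mer r g) :
    Mer r (fun s => f s * g s) := by
  obtain ⟨h1, D, C, hC⟩ := hf
  obtain ⟨h2, D', C', hC'⟩ := hg
  refine ⟨h1.mul h2, D + D', |C| * |C'|, fun s hs => ?_⟩
  have h6 : (0 : ℝ) ≤ ‖s‖⁻¹ ^ D := by positivity
  have h7 : (0 : ℝ) ≤ ‖s‖⁻¹ ^ D' := by positivity
  have h8 : ‖f s‖ ≤ |C| * ‖s‖⁻¹ ^ D :=
    (hC s hs).trans (mul_le_mul_of_nonneg_right (le_abs_self _) h6)
  have h9 : ‖g s‖ ≤ |C'| * ‖s‖⁻¹ ^ D' :=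
    (hC' s hs).trans (mul_le_mul_of_nonneg_right (le_abs_self _) h7)
  calc ‖f s * g s‖ = ‖f s‖ * ‖g s‖ := norm_mul _ _
    _ ≤ (|C| * ‖s‖⁻¹ ^ D) * (|C'| * ‖s‖⁻¹ ^ D') :=
      mul_le_mul h8 h9 (norm_nonneg _) (by positivity)
    _ = |C| * |C'| * ‖s‖⁻¹ ^ (D + D') := by rw [pow_add]; ring

theorem Mer.sum {r : ℝ} (hr1 : r < 1) {α : Type} (S : Finset α) (f : α → ℂ → ℂ)
    (hf : ∀ a ∈ S, Mer r (f a)) : Mer r (fun s => ∑ a ∈ S, f a s) := by
  classical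
  induction S using Finset.induction_on with
  | empty => simpa using Mer.zero r
  | insert a S ha ih =>
    have h1 := ih (fun b hb => hf b (Finset.mem_insert_of_mem hb))
    have h2 := Mer.add hr1 (hf a (Finset.mem_insert_self _ _)) h1
    simp only [Finset.sum_insert ha]
    exact h2

theorem Mer.of_bdd {r C : ℝ} {f : ℂ → ℂ} (hf : DifferentiableOn ℂ f (U r))
    (hC : ∀ s ∈ U r, ‖f s‖ ≤ C) : Mer r f :=
  ⟨hf, 0, C, fun s hs => by simpa using hC s hs⟩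

/-- `1/Γ` of a bounded function is bounded -/
theorem invGamma_bdd (C : ℝ) : ∃ C' : ℝ, ∀ w : ℂ, ‖w‖ ≤ C → ‖(Gamma w)⁻¹‖ ≤ C' := by
  have h1 : ContinuousOn (fun w : ℂ => (Gamma w)⁻¹) (Metric.closedBall 0 C) :=
    differentiable_one_div_Gamma.continuous.continuousOn
  obtain ⟨C', hC'⟩ := (isCompact_closedBall (0 : ℂ) C).exists_bound_of_continuousOn h1
  exact ⟨C', fun w hw => hC' w (by simpa using hw)⟩

end Pool.Agent.W266.GF
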